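import Pool.Agent.TH977.PW.Inst

set_option autoImplicit false

/-!
# The primes `q` with `2 q - 1` almost prime, and their neighbours

Let `R r` be the set of the `q` for which all prime factors of `q` and of `2 q - 1` are larger than
`q ^ (1 / r)`; all primes `q` with `2 q - 1` prime belong to it. For all large `X` the interval
`(X, 2 X]` contains at least `κ X / log ^ 2 X` primes `q` in `R r` such that `2 q - 1` has at most
`r` prime factors. Let `A` be an ARBITRARY subset of `R r` (for example the set of the primes `q`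
with `2 q - 1` prime). In every short interval `(X, X + Y]`, `X ^ θ ≤ Y ≤ X / 2`, all but
`ε Y / log ^ 2 X` of the elements of `A` are regular points of `A`: the elements of `A` in ALL
intervals of length between `log ^ 2 X / c` and `Y` around them have the right order, and constant
density up to `δ` at all but `B (ε, δ)` dyadic scales.
-/

namespace Pool.Agent.Results.MP_39a890_nt.RegularNeighbours

open Finset Filter
open Pool.Agent.TH977.PW (N Irregular)

/-- All prime factors of `q` and of `2 q - 1` are larger than `q ^ (1 / r)`. -/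
def R (r : ℕ) : Set ℕ :=
  {q | ∀ l : ℕ, l.Prime → l ∣ q * (2 * q - 1) → (q : ℝ) ^ (1 / (r : ℝ)) < (l : ℝ)}

lemma cast_eq (m : ℕ) (hm : 1 ≤ m) : ((2 : ℕ) : ℤ) * (m : ℤ) + (-1) = ((2 * m - 1 : ℕ) : ℤ) := by
  rw [Nat.cast_sub (by omega)]
  push_cast
  ring

/-- **Regular neighbours, `q` and `2 q - 1`.** -/
theorem result (θ : ℝ) (hθ : 0 < θ) (hθ1 : θ ≤ 1) :
    ∃ r₀ : ℕ, 2 ≤ r₀ ∧ ∀ r : ℕ, r₀ ≤ r →
      (∀ q : ℕ, q.Prime → (2 * q - 1).Prime → q ∈ R r) ∧
      (∃ κ : ℝ, 0 < κ ∧ ∀ᶠ X : ℕ in atTop, κ * X / Real.log X ^ 2 ≤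
        N {q | q.Prime ∧ q ∈ R r ∧ (2 * q - 1).primeFactorsList.length ≤ r} X (2 * X)) ∧
      ∀ ε : ℝ, 0 < ε → ∃ c : ℝ, 0 < c ∧ ∀ δ : ℝ, 0 < δ → ∃ B : ℕ,
        ∀ᶠ X : ℕ in atTop, ∀ Y : ℕ, (X : ℝ) ^ θ ≤ Y → 2 * Y ≤ X → ∀ A : Set ℕ, A ⊆ R r →
          (N (Irregular A 2 c δ B X Y) X (X + Y) : ℝ) ≤ ε * Y / Real.log X ^ 2 := by
  obtain ⟨r0, hr0, h⟩ := Pool.Agent.TH977.PW.final_lin_prime
    (fun _ : Fin 1 => 2) (fun _ => -1) (fun _ => two_pos)
    (fun _ => ⟨1, 1, by norm_num⟩) (fun i j _ _ => Subsingleton.elim _ _)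
    (fun i hi => by
      have := hi.1
      omega)
    (fun p hp => ⟨1, fun h1 => hp.one_lt.ne' (Nat.dvd_one.1 h1), fun _ h1 => by
      rw [cast_eq 1 le_rfl, Int.natCast_dvd_natCast] at h1
      exact hp.one_lt.ne' (Nat.dvd_one.1 h1)⟩)
    (fun r => R r)
    (fun r => {q | q.Prime ∧ q ∈ R r ∧ (2 * q - 1).primeFactorsList.length ≤ r})
    2 (by rw [Fintype.card_fin])
    (fun r m _ hm => ⟨fun p hp hd => hm p hp (hd.mul_right _),
      fun _ p hp hd => by
        rcases Nat.eq_zero_or_pos m with h0 | h0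
        · exact hm p hp (by rw [h0, zero_mul]; exact dvd_zero p)
        · rw [cast_eq m h0, Int.natCast_dvd_natCast] at hd
          exact hm p hp (hd.mul_left _)⟩)
    (fun r m hr hm h1 h2 => by
      refine ⟨hm, ?_, ?_⟩
      · intro q hq hdv
        rcases (Nat.Prime.dvd_mul hq).1 hdv with h3 | h3
        · exact Pool.Agent.TH977.PW.rpow_lt_dvd r m q hr hm hq h3
        · refine h1 0 q hq ?_
          rw [cast_eq m hm.pos, Int.natCast_dvd_natCast]
          exact h3
      · have := h2 0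
        rw [cast_eq m hm.pos, Int.natAbs_natCast] at this
        exact this) θ hθ hθ1
  refine ⟨r0, hr0, fun r hr => ⟨?_, (h r hr).1, (h r hr).2⟩⟩
  intro q hq hpr l hl hdv
  rcases (Nat.Prime.dvd_mul hl).1 hdv with h3 | h3
  · exact Pool.Agent.TH977.PW.rpow_lt_dvd r q l (hr0.trans hr) hq hl h3
  · rw [(Nat.prime_dvd_prime_iff_eq hl hpr).1 h3]
    have := hq.two_le
    exact Pool.Agent.TH977.PW.rpow_lt_of_le r q (2 * q - 1) (hr0.trans hr) hq.two_le (by omega)

end Pool.Agent.Results.MP_39a890_nt.RegularNeighbours
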