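import Pool.Agent.TH899.UG.DN3
import Pool.Agent.TH899.UG.USub

/-!
# One of the first three iterates of `2 x + e`, at every scale, up to small perturbations

There is `C` such that for every `η > 0`, all sufficiently large `N`, every `H` with `C ≤ H ≤ N / C` and
EVERY integer `e` with `|e| ≤ N / C` one of the first three iterates `S ^ k`, `k = 1, 2, 3`, of
`S x = 2 x + e` has the following property: for at least `H / 450` of the integers `c` with `|c| ≤ H`
there are at least `N ^ (1 - η)` primes `p` in `[N, 16 N]` such that `p = S ^ k q + c` with `q` prime.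

Proof: two of any four classes of linear forms are hit by primes, uniformly in constant terms up to the
size of the variable (`Pool.Agent.TH899.UG.Uni.exactL`), Erdos's box theorem and an average over the
translations of the classes.
-/

set_option autoImplicit false

namespace Pool.Agent.Results.MP_39a890_nt.ThreeIterates

open Filter

open Classical Finset in
theorem result : ∃ C : ℕ, ∀ η : ℝ, 0 < η → ∀ᶠ N : ℕ in atTop, ∀ H : ℕ, C ≤ H → C * H ≤ N →
    ∀ e : ℤ, C * |e| ≤ N → ∃ k : ℕ, 1 ≤ k ∧ k ≤ 3 ∧ (H : ℝ) / 450 ≤ ({c : ℤ | |c| ≤ H ∧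
      (N : ℝ) ^ (1 - η) ≤ ({p : ℕ | N ≤ p ∧ p ≤ 16 * N ∧ p.Prime ∧
        ∃ q : ℕ, q.Prime ∧ (p : ℤ) = 2 ^ k * q + (2 ^ k - 1) * e + c}.ncard : ℝ)}.ncard : ℝ) := by
  obtain ⟨c, hc, hc1, HD⟩ := Pool.Agent.TH899.UG.DN.dens
  have htot : Nat.totient 6 = 2 := by decide +kernel
  obtain ⟨C, hC⟩ := HD 4 1 (by norm_num) (by push_cast; linarith) 8 6 (by norm_num)
    (by
      intro p hp hp8
      interval_cases p <;> first | decide | exact absurd hp (by norm_num))
    (1 / 55) (by norm_num) (by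
      rw [htot]
      have : Nat.choose 4 2 = 6 := by decide
      rw [this]
      norm_num)
  refine ⟨8 * C + 10000, fun η hη => ?_⟩
  have htend : Tendsto (fun s : ℕ => (14 * s) / 5) atTop atTop :=
    tendsto_atTop.2 fun b => by
      filter_upwards [eventually_ge_atTop b] with s hs
      omega
  filter_upwards [htend.eventually (hC (min η 1) (by positivity)), eventually_ge_atTop 1000000]
    with N₀ hN hN0
  intro H hH1 hH2 e he
  obtain ⟨N, hNd⟩ : ∃ N : ℕ, N = (14 * N₀) / 5 := ⟨_, rfl⟩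
  rw [← hNd] at hN
  obtain ⟨h, hh⟩ : ∃ h : ℕ, h = H / 8 := ⟨_, rfl⟩
  have hCh : C + 1000 ≤ h := by omega
  have hHN : 10000 * H ≤ N₀ := by
    have : 10000 * H ≤ (8 * C + 10000) * H := Nat.mul_le_mul_right _ (by omega)
    omega
  have hCN : C * h ≤ N := by
    have h1 : C * h ≤ (8 * C + 10000) * H := Nat.mul_le_mul (by omega) (by omega)
    omega
  have heN : 10000 * |e| ≤ N₀ := by
    have h1 : 10000 * |e| ≤ ((8 * C + 10000 : ℕ) : ℤ) * |e| := by
      apply mul_le_mul_of_nonneg_right _ (abs_nonneg e)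
      push_cast
      have : (0 : ℤ) ≤ C := Nat.cast_nonneg _
      linarith
    exact h1.trans he
  have he1 := abs_le.1 (le_refl |e|)
  obtain ⟨E, hE⟩ : ∃ E : ℤ, E = |e| := ⟨_, rfl⟩
  rw [← hE] at heN he1
  obtain ⟨s, hs⟩ : ∃ s : ℕ, s = N / 8 := ⟨_, rfl⟩
  have hN1 : 5 * N ≤ 14 * N₀ ∧ 14 * N₀ < 5 * N + 5 := by omega
  have hs1 : 8 * s ≤ N ∧ N < 8 * s + 8 := by omega
  have hpw : ∀ g : Fin 4, (1 : ℤ) ≤ 2 ^ (g : ℕ) ∧ (2 : ℤ) ^ (g : ℕ) ≤ 8 := by
    intro g; fin_cases g <;> norm_num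
  have hval : ∀ g : Fin 4, (g : ℕ) = 0 ∨ (g : ℕ) = 1 ∨ (g : ℕ) = 2 ∨ (g : ℕ) = 3 := by
    intro g; omega
  have hbb : ∀ g : Fin 4, |(2 : ℤ) ^ (g : ℕ) * s + (2 ^ (g : ℕ) - 1) * e| ≤ N + 7 * E := by
    intro g
    rcases hval g with h1 | h1 | h1 | h1 <;> rw [h1] <;> rw [abs_le] <;> constructor <;> norm_num <;>
      omega
  have hlow : ∀ g : Fin 4, -(7 * E) ≤ (2 : ℤ) ^ (g : ℕ) * s + (2 ^ (g : ℕ) - 1) * e := by
    intro g
    rcases hval g with h1 | h1 | h1 | h1 <;> rw [h1] <;> norm_num <;> omega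
  obtain ⟨S, hS, hG⟩ := hN h (by omega) hCN (fun g => 2 ^ (g : ℕ))
    (fun g => 2 ^ (g : ℕ) * (s : ℤ) + (2 ^ (g : ℕ) - 1) * e)
    (fun g => by positivity)
    (fun g => by
      rw [abs_of_nonneg (by positivity)]
      exact_mod_cast (hpw g).2)
    (fun g p hp hpd => by
      have h1 : (p : ℤ) ∣ 2 := (Nat.prime_iff_prime_int.1 hp).dvd_of_dvd_pow hpd
      have h2 : p ∣ 2 := by exact_mod_cast h1
      exact h2.trans (by norm_num))
    (fun g => by
      have h1 := hbb g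
      have h2 : 70 * E ≤ N := by omega
      show 10 * |(2 : ℤ) ^ (g : ℕ) * s + (2 ^ (g : ℕ) - 1) * e| ≤ 11 * (N : ℤ)
      omega)
    (fun g y h1 _ => by
      have h3 := hlow g
      have h4 : (-(7 * (E : ℝ))) ≤ (((2 : ℤ) ^ (g : ℕ) * s + (2 ^ (g : ℕ) - 1) * e : ℤ) : ℝ) := by
        exact_mod_cast h3
      have h5 : (1 : ℝ) ≤ (((2 : ℤ) ^ (g : ℕ) : ℤ) : ℝ) := by exact_mod_cast (hpw g).1
      have h6 : 1000 * E ≤ N := by omega
      have h7 : (1000 : ℝ) * E ≤ N := by exact_mod_cast h6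
      have hN0r : (0 : ℝ) ≤ N := Nat.cast_nonneg _
      have hy0 : (0 : ℝ) ≤ y := by linarith
      have h8 : y ≤ (((2 : ℤ) ^ (g : ℕ) : ℤ) : ℝ) * y := by nlinarith
      linarith)
  set i := S.orderEmbOfFin hS 0 with hi
  set j := S.orderEmbOfFin hS 1 with hj
  have hij : i < j := (S.orderEmbOfFin hS).strictMono (by decide)
  have hiS : i ∈ S := S.orderEmbOfFin_mem hS 0
  have hjS : j ∈ S := S.orderEmbOfFin_mem hS 1
  have hSall : ∀ g ∈ S, g = i ∨ g = j := by
    intro g hg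
    have h1 : g ∈ Set.range (S.orderEmbOfFin hS) := by
      rw [Finset.range_orderEmbOfFin]; exact hg
    obtain ⟨m, rfl⟩ := h1
    fin_cases m
    · exact Or.inl rfl
    · exact Or.inr rfl
  clear_value i j
  obtain ⟨k, hk⟩ : ∃ k : ℕ, (j : ℕ) = i + k := ⟨(j : ℕ) - i, by
    have : (i : ℕ) < j := hij
    omega⟩
  have hij' : (i : ℕ) < j := hij
  have hj3 : (j : ℕ) ≤ 3 := by omega
  refine ⟨k, by omega, by omega, ?_⟩
  have hpk : (1 : ℤ) ≤ 2 ^ k ∧ (2 : ℤ) ^ k ≤ 8 := by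
    have h1 : k = 1 ∨ k = 2 ∨ k = 3 := by omega
    rcases h1 with h1 | h1 | h1 <;> rw [h1] <;> norm_num
  have hpj : (2 : ℤ) ^ (j : ℕ) = 2 ^ k * 2 ^ (i : ℕ) := by
    rw [hk, pow_add, mul_comm]
  set Z : Set ℤ := {c : ℤ | |c| ≤ H ∧
      (N₀ : ℝ) ^ (1 - η) ≤ ({p : ℕ | N₀ ≤ p ∧ p ≤ 16 * N₀ ∧ p.Prime ∧
        ∃ q : ℕ, q.Prime ∧ (p : ℤ) = 2 ^ k * q + (2 ^ k - 1) * e + c}.ncard : ℝ)} with hZ
  have hZfin : Z.Finite := by
    refine (Set.finite_Icc (-(H : ℤ)) H).subset ?_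
    rintro z ⟨h1, -⟩
    exact ⟨(abs_le.1 h1).1, (abs_le.1 h1).2⟩
  have hcard : (Pool.Agent.TH899.UG.DN.G N h (min η 1) (fun g : Fin 4 => 2 ^ (g : ℕ))
      (fun g => 2 ^ (g : ℕ) * (s : ℤ) + (2 ^ (g : ℕ) - 1) * e) S).card ≤ h * Z.ncard := by
    rw [Set.ncard_eq_toFinset_card Z hZfin]
    have h0 : h * hZfin.toFinset.card = ((Finset.range h) ×ˢ hZfin.toFinset).card := by
      rw [Finset.card_product, Finset.card_range]
    rw [h0]
    refine Finset.card_le_card_of_injOn (fun ε : Fin 4 → ℕ => (ε i,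
      ((ε j : ℤ) - 2 ^ k * ε i))) ?_ ?_
    · intro ε hε
      obtain ⟨h1, h2⟩ := Finset.mem_filter.1 (Finset.mem_coe.1 hε)
      rw [Fintype.mem_piFinset] at h1
      have hei : ε i < h := by
        have := h1 i
        rw [if_pos hiS] at this
        exact Finset.mem_range.1 this
      have hej : ε j < h := by
        have := h1 j
        rw [if_pos hjS] at this
        exact Finset.mem_range.1 this
      refine Finset.mem_coe.2 (Finset.mem_product.2 ⟨Finset.mem_range.2 hei, ?_⟩)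
      rw [Set.Finite.mem_toFinset]
      have hεi0 : (0 : ℤ) ≤ ε i := Nat.cast_nonneg _
      have hεb : (2 : ℤ) ^ k * ε i ≤ 8 * ε i := mul_le_mul_of_nonneg_right hpk.2 hεi0
      have hεb0 : (0 : ℤ) ≤ 2 ^ k * ε i := by positivity
      have hN0N : (N₀ : ℝ) ^ (1 - η) ≤ (N : ℝ) ^ (1 - min η 1) :=
        Pool.Agent.TH899.UG.USub.rpow_mono (by exact_mod_cast (by omega : 1 ≤ N₀))
          (by exact_mod_cast (by omega : N₀ ≤ N))
      refine ⟨?_, hN0N.trans (h2.trans ?_)⟩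
      · show |(ε j : ℤ) - 2 ^ k * ε i| ≤ H
        rw [abs_le]
        constructor <;> omega
      · rw [Nat.cast_le]
        unfold Pool.Agent.TH899.UG.DN.cn
        rw [← Set.ncard_coe_finset]
        have hfin : {p : ℕ | N₀ ≤ p ∧ p ≤ 16 * N₀ ∧ p.Prime ∧
            ∃ q : ℕ, q.Prime ∧ (p : ℤ) = 2 ^ k * q + (2 ^ k - 1) * e +
              ((ε j : ℤ) - 2 ^ k * ε i)}.Finite :=
          (Set.finite_Iic (16 * N₀)).subset fun p hp => hp.2.1
        have hform : ∀ g : Fin 4, ∀ n : ℤ, (2 : ℤ) ^ (g : ℕ) * n + ((2 ^ (g : ℕ) * (s : ℤ) +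
            (2 ^ (g : ℕ) - 1) * e) + ε g) = 2 ^ (g : ℕ) * (n + s + e) - e + ε g := by
          intro g n; ring
        have hpos : ∀ x : ℤ, x.toNat.Prime → ((x.toNat : ℕ) : ℤ) = x := by
          intro x hx
          apply Int.toNat_of_nonneg
          by_contra hcon
          have h1 : x.toNat = 0 := Int.toNat_of_nonpos (by omega)
          rw [h1] at hx
          exact Nat.not_prime_zero hx
        refine Set.ncard_le_ncard_of_injOn (fun n : ℕ =>
          ((2 : ℤ) ^ (j : ℕ) * (n + s + e) - e + ε j).toNat) ?_ ?_ hfin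
        · intro n hn
          obtain ⟨h3, h4, h5, h6⟩ := Finset.mem_filter.1 (Finset.mem_coe.1 hn)
          have h7 := h6 j hjS
          have h8 := h6 i hiS
          rw [hform] at h7 h8
          have h9 := hpos _ h7
          have h10 := hpos _ h8
          have hj1 : (2 : ℤ) ≤ 2 ^ (j : ℕ) := by
            have : (j : ℕ) = 1 ∨ (j : ℕ) = 2 ∨ (j : ℕ) = 3 := by omega
            rcases this with h | h | h <;> rw [h] <;> norm_num
          have hx0 : (0 : ℤ) ≤ (n : ℤ) + s + e := by omega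
          have hlo : 2 * ((n : ℤ) + s + e) ≤ 2 ^ (j : ℕ) * (n + s + e) :=
            mul_le_mul_of_nonneg_right hj1 hx0
          have hhi : (2 : ℤ) ^ (j : ℕ) * (n + s + e) ≤ 8 * (n + s + e) :=
            mul_le_mul_of_nonneg_right (hpw j).2 hx0
          refine ⟨?_, ?_, h7, _, h8, ?_⟩
          · show N₀ ≤ ((2 : ℤ) ^ (j : ℕ) * (n + s + e) - e + ε j).toNat
            omega
          · show ((2 : ℤ) ^ (j : ℕ) * (n + s + e) - e + ε j).toNat ≤ 16 * N₀
            omega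
          · show (((((2 : ℤ) ^ (j : ℕ) * (n + s + e) - e + ε j).toNat : ℕ)) : ℤ) = _
            rw [h9, h10, hpj]
            ring
        · intro n hn n' hn' hnn
          have h7 := hpos _ (by
            have := (Finset.mem_filter.1 (Finset.mem_coe.1 hn)).2.2.2 j hjS
            rwa [hform] at this)
          have h8 := hpos _ (by
            have := (Finset.mem_filter.1 (Finset.mem_coe.1 hn')).2.2.2 j hjS
            rwa [hform] at this)
          have h9 : ((2 : ℤ) ^ (j : ℕ) * ((n : ℤ) + s + e) - e + ε j).toNat =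
              ((2 : ℤ) ^ (j : ℕ) * ((n' : ℤ) + s + e) - e + ε j).toNat := hnn
          rw [h9, h8] at h7
          have h10 : (2 : ℤ) ^ (j : ℕ) * (n' + s + e) = 2 ^ (j : ℕ) * (n + s + e) := by linarith
          have h11 := mul_left_cancel₀ (by positivity) h10
          have h12 : (n : ℤ) = n' := by linarith
          exact_mod_cast h12
    · intro ε hε ε' hε' hee
      obtain ⟨h1, -⟩ := Finset.mem_filter.1 (Finset.mem_coe.1 hε)
      obtain ⟨h1', -⟩ := Finset.mem_filter.1 (Finset.mem_coe.1 hε')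
      rw [Fintype.mem_piFinset] at h1 h1'
      simp only [Prod.mk.injEq] at hee
      obtain ⟨e1, e2⟩ := hee
      rw [e1] at e2
      funext g
      by_cases hg : g ∈ S
      · rcases hSall g hg with h | h
        · rw [h]; exact e1
        · rw [h]; omega
      · have h2 := h1 g
        have h3 := h1' g
        rw [if_neg hg, Finset.mem_singleton] at h2 h3
        rw [h2, h3]
  have hhpos : (0 : ℝ) < h := by
    have : 0 < h := by omega
    exact_mod_cast this
  have h1 : 1 / 55 * (h : ℝ) ^ (1 + 1) ≤ (h : ℝ) * (Z.ncard : ℝ) :=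
    hG.trans (by exact_mod_cast hcard)
  have h2 : (h : ℝ) * ((h : ℝ) / 55) ≤ (h : ℝ) * (Z.ncard : ℝ) := by
    calc (h : ℝ) * ((h : ℝ) / 55) = 1 / 55 * (h : ℝ) ^ (1 + 1) := by ring
      _ ≤ _ := h1
  have h3 := le_of_mul_le_mul_left h2 hhpos
  refine le_trans ?_ h3
  have h4 : 440 * h + 3520 ≥ 55 * H := by omega
  have h5 : 10000 ≤ H := by omega
  have h4r : (55 : ℝ) * H ≤ 440 * h + 3520 := by exact_mod_cast h4
  have h5r : (10000 : ℝ) ≤ H := by exact_mod_cast h5
  rw [div_le_div_iff₀ (by norm_num) (by norm_num)]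
  linarith

end Pool.Agent.Results.MP_39a890_nt.ThreeIterates
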